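import Pool.Agent.Helper32_NJ.Stmts

set_option autoImplicit false

namespace Pool.Agent.NJ.H36

open Polynomial

noncomputable section

/-- the valuation subring of an additive order function -/
def vsr (v : RatFunc ℂ → ℤ)
    (hm : ∀ f g : RatFunc ℂ, f ≠ 0 → g ≠ 0 → v (f * g) = v f + v g)
    (ha : ∀ f g : RatFunc ℂ, f ≠ 0 → g ≠ 0 → f + g ≠ 0 → min (v f) (v g) ≤ v (f + g)) :
    ValuationSubring (RatFunc ℂ) where
  carrier := {f | f = 0 ∨ 0 ≤ v f}
  mul_mem' := by
    intro f g hf hg
    by_cases hf0 : f = 0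
    · left; rw [hf0, zero_mul]
    by_cases hg0 : g = 0
    · left; rw [hg0, mul_zero]
    right
    rw [hm f g hf0 hg0]
    rcases hf with h | h
    · exact absurd h hf0
    rcases hg with h' | h'
    · exact absurd h' hg0
    omega
  one_mem' := by
    right
    have h := hm 1 1 one_ne_zero one_ne_zero
    rw [mul_one] at h
    omega
  add_mem' := by
    intro f g hf hg
    by_cases hf0 : f = 0
    · rw [hf0, zero_add]; exact hg
    by_cases hg0 : g = 0
    · rw [hg0, add_zero]; exact hf
    by_cases hs : f + g = 0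
    · left; exact hs
    right
    have h := ha f g hf0 hg0 hs
    rcases hf with h1 | h1
    · exact absurd h1 hf0
    rcases hg with h2 | h2
    · exact absurd h2 hg0
    exact le_trans (le_min h1 h2) h
  zero_mem' := Or.inl rfl
  neg_mem' := by
    intro f hf
    by_cases hf0 : f = 0
    · left; rw [hf0, neg_zero]
    right
    rcases hf with h1 | h1
    · exact absurd h1 hf0
    have h11 : v 1 = 0 := by
      have h := hm 1 1 one_ne_zero one_ne_zero
      rw [mul_one] at h
      omega
    have hn : v (-1) = 0 := by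
      have h := hm (-1) (-1) (by simp) (by simp)
      rw [neg_one_mul, neg_neg, h11] at h
      omega
    have h := hm (-1) f (by simp) hf0
    rw [neg_one_mul, hn, zero_add] at h
    rw [h]; exact h1
  mem_or_inv_mem' := by
    intro f
    by_cases hf0 : f = 0
    · left; left; exact hf0
    have h11 : v 1 = 0 := by
      have h := hm 1 1 one_ne_zero one_ne_zero
      rw [mul_one] at h
      omega
    have h := hm f f⁻¹ hf0 (inv_ne_zero hf0)
    rw [mul_inv_cancel₀ hf0, h11] at h
    by_cases hv : 0 ≤ v f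
    · left; right; exact hv
    · right; right
      show 0 ≤ v f⁻¹
      omega

theorem mem_vsr (v : RatFunc ℂ → ℤ)
    (hm : ∀ f g : RatFunc ℂ, f ≠ 0 → g ≠ 0 → v (f * g) = v f + v g)
    (ha : ∀ f g : RatFunc ℂ, f ≠ 0 → g ≠ 0 → f + g ≠ 0 → min (v f) (v g) ≤ v (f + g))
    (f : RatFunc ℂ) (hf : f ≠ 0) : f ∈ vsr v hm ha ↔ 0 ≤ v f := by
  constructor
  · intro h
    rcases h with h | h
    · exact absurd h hf
    · exact h
  · intro h
    exact Or.inr h

/-- the order at a finite point -/
def ordt (t : ℂ) (f : RatFunc ℂ) : ℤ :=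
  (f.num.rootMultiplicity t : ℤ) - (f.denom.rootMultiplicity t : ℤ)

theorem ordt_mul (t : ℂ) (f g : RatFunc ℂ) (hf : f ≠ 0) (hg : g ≠ 0) :
    ordt t (f * g) = ordt t f + ordt t g := by
  have h := RatFunc.num_denom_mul f g
  have h1 : (f * g).num ≠ 0 := RatFunc.num_ne_zero (mul_ne_zero hf hg)
  have h2 := (f * g).denom_ne_zero
  have h3 := f.denom_ne_zero
  have h4 := g.denom_ne_zero
  have h5 := RatFunc.num_ne_zero hf
  have h6 := RatFunc.num_ne_zero hg
  have e := congrArg (fun p : ℂ[X] => p.rootMultiplicity t) h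
  rw [rootMultiplicity_mul (mul_ne_zero h1 (mul_ne_zero h3 h4)),
    rootMultiplicity_mul (mul_ne_zero h3 h4),
    rootMultiplicity_mul (mul_ne_zero (mul_ne_zero h5 h6) h2),
    rootMultiplicity_mul (mul_ne_zero h5 h6)] at e
  unfold ordt
  omega

theorem ordt_add (t : ℂ) (f g : RatFunc ℂ) (hf : f ≠ 0) (hg : g ≠ 0) (hs : f + g ≠ 0) :
    min (ordt t f) (ordt t g) ≤ ordt t (f + g) := by
  have h := RatFunc.num_denom_add f g
  have h1 : (f + g).num ≠ 0 := RatFunc.num_ne_zero hs
  have h2 := (f + g).denom_ne_zero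
  have h3 := f.denom_ne_zero
  have h4 := g.denom_ne_zero
  have h5 := RatFunc.num_ne_zero hf
  have h6 := RatFunc.num_ne_zero hg
  have h7 : f.num * g.denom + f.denom * g.num ≠ 0 := by
    intro h0
    rw [h0, zero_mul] at h
    exact mul_ne_zero h1 (mul_ne_zero h3 h4) h
  have e := congrArg (fun p : ℂ[X] => p.rootMultiplicity t) h
  rw [rootMultiplicity_mul (mul_ne_zero h1 (mul_ne_zero h3 h4)),
    rootMultiplicity_mul (mul_ne_zero h3 h4),
    rootMultiplicity_mul (mul_ne_zero h7 h2)] at e
  have k := rootMultiplicity_add t h7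
  rw [rootMultiplicity_mul (mul_ne_zero h5 h4), rootMultiplicity_mul (mul_ne_zero h3 h6)] at k
  unfold ordt
  omega

theorem ordt_poly (t : ℂ) (p : ℂ[X]) :
    ordt t (algebraMap ℂ[X] (RatFunc ℂ) p) = (p.rootMultiplicity t : ℤ) := by
  unfold ordt
  rw [RatFunc.num_algebraMap, RatFunc.denom_algebraMap]
  simp

theorem deg_add (f g : RatFunc ℂ) (_hf : f ≠ 0) (hg : g ≠ 0) (hs : f + g ≠ 0) :
    min (-f.intDegree) (-g.intDegree) ≤ -(f + g).intDegree := by
  have h := RatFunc.intDegree_add_le hg hs
  rcases le_max_iff.mp h with h' | h'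
  · exact le_trans (min_le_left _ _) (by omega)
  · exact le_trans (min_le_right _ _) (by omega)

theorem plc : PLCStmt := by
  refine ⟨fun t => ?_, ?_⟩
  · refine ⟨vsr (ordt t) (ordt_mul t) (ordt_add t), ordt t, ⟨?_, ?_⟩, ordt_mul t, ?_, ?_⟩
    · intro c
      by_cases hc : c = 0
      · rw [hc, map_zero]; exact Or.inl rfl
      · have hC : (RatFunc.C c : RatFunc ℂ) ≠ 0 := by
          intro h
          exact hc ((map_eq_zero (RatFunc.C (K := ℂ))).mp h)
        rw [mem_vsr _ _ _ _ hC]
        have e : (RatFunc.C c : RatFunc ℂ) = algebraMap ℂ[X] (RatFunc ℂ) (C c) := by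
          rw [RatFunc.algebraMap_C]
        rw [e, ordt_poly]
        exact Int.natCast_nonneg _
    · intro htop
      have hX : (X - C t : ℂ[X]) ≠ 0 := X_sub_C_ne_zero t
      have hX' : algebraMap ℂ[X] (RatFunc ℂ) (X - C t) ≠ 0 := RatFunc.algebraMap_ne_zero hX
      have hin : (algebraMap ℂ[X] (RatFunc ℂ) (X - C t))⁻¹ ∈
          vsr (ordt t) (ordt_mul t) (ordt_add t) := by rw [htop]; trivial
      rw [mem_vsr _ _ _ _ (inv_ne_zero hX')] at hin
      have h := ordt_mul t _ _ hX' (inv_ne_zero hX')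
      rw [mul_inv_cancel₀ hX', ordt_poly, rootMultiplicity_X_sub_C_self] at h
      have h1 : ordt t 1 = 0 := by
        have := ordt_poly t 1
        rw [map_one] at this
        rw [this]
        simp
      rw [h1] at h
      omega
    · intro f hf
      exact mem_vsr _ _ _ _ hf
    · intro p _
      exact ordt_poly t p
  · have hm : ∀ f g : RatFunc ℂ, f ≠ 0 → g ≠ 0 →
        (fun f : RatFunc ℂ => -f.intDegree) (f * g) =
          (fun f : RatFunc ℂ => -f.intDegree) f + (fun f : RatFunc ℂ => -f.intDegree) g := by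
      intro f g hf hg
      simp only
      rw [RatFunc.intDegree_mul hf hg]
      ring
    refine ⟨vsr (fun f => -f.intDegree) hm deg_add, fun f => -f.intDegree, ⟨?_, ?_⟩, hm, ?_, ?_⟩
    · intro c
      by_cases hc : c = 0
      · rw [hc, map_zero]; exact Or.inl rfl
      · have hC : (RatFunc.C c : RatFunc ℂ) ≠ 0 := by
          intro h
          exact hc ((map_eq_zero (RatFunc.C (K := ℂ))).mp h)
        rw [mem_vsr _ _ _ _ hC]
        simp
    · intro htop
      have hin : (RatFunc.X : RatFunc ℂ) ∈ vsr (fun f => -f.intDegree) hm deg_add := by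
        rw [htop]; trivial
      rw [mem_vsr _ _ _ _ RatFunc.X_ne_zero] at hin
      simp at hin
    · intro f hf
      exact mem_vsr _ _ _ _ hf
    · intro p _
      simp only
      rw [RatFunc.intDegree_polynomial]

end

end Pool.Agent.NJ.H36
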