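import Pool.Agent.Helper32_NJ.Stmts

set_option autoImplicit false

namespace Pool.Agent.NJ.H36

open Polynomial

theorem pol : POLStmt := by
  intro e₁ e₂ e₃ h12 h23 h31
  classical
  set a : RatFunc ℚ := e₁ - e₂ with ha
  set b : RatFunc ℚ := e₂ - e₃ with hb
  have ha0 : a ≠ 0 := sub_ne_zero.mpr h12
  have hb0 : b ≠ 0 := sub_ne_zero.mpr h23
  have hab : a + b ≠ 0 := by
    rw [ha, hb]
    intro h
    apply h31
    linear_combination -h
  set P : ℚ[X] := a.num * b.denom with hP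
  set Q : ℚ[X] := b.num * a.denom with hQ
  set d : ℚ[X] := a.denom * b.denom with hd
  have hd0 : d ≠ 0 := mul_ne_zero a.denom_ne_zero b.denom_ne_zero
  have hP0 : P ≠ 0 := mul_ne_zero (RatFunc.num_ne_zero ha0) b.denom_ne_zero
  have hQ0 : Q ≠ 0 := mul_ne_zero (RatFunc.num_ne_zero hb0) a.denom_ne_zero
  have hda : algebraMap ℚ[X] (RatFunc ℚ) a.denom ≠ 0 := RatFunc.algebraMap_ne_zero a.denom_ne_zero
  have hdb : algebraMap ℚ[X] (RatFunc ℚ) b.denom ≠ 0 := RatFunc.algebraMap_ne_zero b.denom_ne_zero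
  have hdd : algebraMap ℚ[X] (RatFunc ℚ) d ≠ 0 := RatFunc.algebraMap_ne_zero hd0
  have haP : a = algebraMap ℚ[X] (RatFunc ℚ) P / algebraMap ℚ[X] (RatFunc ℚ) d := by
    conv_lhs => rw [← RatFunc.num_div_denom a]
    rw [hP, hd, map_mul, map_mul]
    field_simp
  have hbQ : b = algebraMap ℚ[X] (RatFunc ℚ) Q / algebraMap ℚ[X] (RatFunc ℚ) d := by
    conv_lhs => rw [← RatFunc.num_div_denom b]
    rw [hQ, hd, map_mul, map_mul]
    field_simp
  set g : ℚ[X] := gcd P Q with hg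
  have hg0 : g ≠ 0 := gcd_ne_zero_of_left hP0
  obtain ⟨x, hx⟩ : g ∣ P := gcd_dvd_left P Q
  obtain ⟨y, hy⟩ : g ∣ Q := gcd_dvd_right P Q
  have hcop : IsCoprime x y := by
    have h := isCoprime_div_gcd_div_gcd (p := P) (q := Q) hQ0
    rw [← hg] at h
    have e1 : P / g = x := by rw [hx]; exact mul_div_cancel_left₀ x hg0
    have e2 : Q / g = y := by rw [hy]; exact mul_div_cancel_left₀ y hg0
    rwa [e1, e2] at h
  have hx0 : x ≠ 0 := by rintro rfl; exact hP0 (by rw [hx, mul_zero])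
  have hy0 : y ≠ 0 := by rintro rfl; exact hQ0 (by rw [hy, mul_zero])
  have e12 : a = ((algebraMap ℚ[X] (RatFunc ℚ) d)⁻¹) ^ 2 *
      algebraMap ℚ[X] (RatFunc ℚ) ((d * g) * x) := by
    rw [haP, hx]
    simp only [map_mul]
    field_simp
  have e23 : b = ((algebraMap ℚ[X] (RatFunc ℚ) d)⁻¹) ^ 2 *
      algebraMap ℚ[X] (RatFunc ℚ) ((d * g) * y) := by
    rw [hbQ, hy]
    simp only [map_mul]
    field_simp
  have e31 : e₃ - e₁ = ((algebraMap ℚ[X] (RatFunc ℚ) d)⁻¹) ^ 2 *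
      algebraMap ℚ[X] (RatFunc ℚ) ((d * g) * (-(x + y))) := by
    have h : e₃ - e₁ = -(a + b) := by rw [ha, hb]; ring
    rw [h, e12, e23]
    simp only [map_mul, map_neg, map_add]
    ring
  refine ⟨(algebraMap ℚ[X] (RatFunc ℚ) d)⁻¹, d * g, x, y, -(x + y), ?_⟩
  refine ⟨inv_ne_zero hdd, mul_ne_zero hd0 hg0, hx0, hy0, ?_, by ring, hcop, e12, e23, e31⟩
  intro hz
  apply h31
  have : e₃ - e₁ = 0 := by rw [e31, hz]; simp
  exact sub_eq_zero.mp this

end Pool.Agent.NJ.H36
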